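import Mathlib

/-! Sums of an antitone function over lines and half lines of the plane. -/

namespace Pool.Agent.H65.FC

open Finset Filter Topology

/-- distance of two natural numbers -/
def nd (i p : ℕ) : ℕ := (i - p) + (p - i)

lemma nd_comm (i p : ℕ) : nd i p = nd p i := by unfold nd; omega

/-- line sum -/
noncomputable def S (δ : ℕ → ℝ) (r : ℕ) : ℝ := ∑' j : ℕ, δ (max r j)

/-- sum of line sums -/
noncomputable def W (δ : ℕ → ℝ) (r : ℕ) : ℝ := ∑' u : ℕ, S δ (max r u)

/-- the class of decay functions -/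
structure Good (δ : ℕ → ℝ) : Prop where
  anti : Antitone δ
  nonneg : ∀ j, 0 ≤ δ j
  summ : Summable fun j : ℕ => (j : ℝ) * δ j

variable {δ : ℕ → ℝ}

lemma Good.summable (h : Good δ) : Summable δ := by
  rw [← summable_nat_add_iff 1]
  refine Summable.of_nonneg_of_le (fun j => h.nonneg _) (fun j => ?_)
    ((summable_nat_add_iff 1).mpr h.summ)
  have := h.nonneg (j + 1)
  push_cast
  nlinarith [this, (Nat.cast_nonneg j : (0 : ℝ) ≤ j)]

lemma square_sum (n : ℕ) : ∑ p ∈ range n ×ˢ range n, δ (max p.1 p.2) =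
    ∑ m ∈ range n, (2 * (m : ℝ) + 1) * δ m := by
  rw [sum_product]
  show ∑ x ∈ range n, ∑ y ∈ range n, δ (max x y) = _
  induction n with
  | zero => simp
  | succ n ih =>
    rw [sum_range_succ, sum_range_succ (fun m : ℕ => (2 * (m : ℝ) + 1) * δ m), ← ih]
    have h1 : ∑ x ∈ range n, ∑ y ∈ range (n + 1), δ (max x y) =
        ∑ x ∈ range n, ∑ y ∈ range n, δ (max x y) + n * δ n := by
      rw [← nsmul_eq_mul, ← card_range n, ← sum_const, card_range, ← sum_add_distrib]
      apply sum_congr rfl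
      intro x hx
      rw [mem_range] at hx
      rw [sum_range_succ, max_eq_right hx.le]
    have h2 : ∑ y ∈ range (n + 1), δ (max n y) = (n + 1) * δ n := by
      rw [show ((n : ℝ) + 1) = ((n + 1 : ℕ) : ℝ) by push_cast; ring, ← nsmul_eq_mul]
      conv_rhs => rw [← card_range (n + 1), ← sum_const]
      apply sum_congr rfl
      intro y hy
      rw [mem_range] at hy
      rw [max_eq_left (by omega)]
    rw [h1, h2]
    ring

lemma Good.summable_prod (h : Good δ) : Summable fun p : ℕ × ℕ => δ (max p.1 p.2) := by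
  have h2 : Summable fun m : ℕ => (2 * (m : ℝ) + 1) * δ m := by
    have := (h.summ.mul_left 2).add h.summable
    refine this.congr (fun m => ?_)
    ring
  refine summable_of_sum_le (c := ∑' m : ℕ, (2 * (m : ℝ) + 1) * δ m) (fun p => h.nonneg _) ?_
  intro u
  obtain ⟨n, hn⟩ : ∃ n, u ⊆ range n ×ˢ range n := by
    refine ⟨(u.sup (fun p => max p.1 p.2)) + 1, fun p hp => ?_⟩
    have := Finset.le_sup (f := fun p : ℕ × ℕ => max p.1 p.2) hp
    rw [mem_product, mem_range, mem_range]
    constructor <;> omega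
  calc ∑ p ∈ u, δ (max p.1 p.2) ≤ ∑ p ∈ range n ×ˢ range n, δ (max p.1 p.2) :=
        sum_le_sum_of_subset_of_nonneg hn (fun p _ _ => h.nonneg _)
    _ = ∑ m ∈ range n, (2 * (m : ℝ) + 1) * δ m := square_sum n
    _ ≤ _ := h2.sum_le_tsum _ (fun m _ => mul_nonneg (by positivity) (h.nonneg m))

lemma Good.summable_line (h : Good δ) (r : ℕ) : Summable fun j : ℕ => δ (max r j) :=
  Summable.of_nonneg_of_le (fun _ => h.nonneg _) (fun _ => h.anti (le_max_right _ _)) h.summable

lemma Good.S_nonneg (h : Good δ) (r : ℕ) : 0 ≤ S δ r := tsum_nonneg (fun _ => h.nonneg _)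

lemma Good.S_anti (h : Good δ) : Antitone (S δ) := by
  intro r r' hr
  exact (h.summable_line r').tsum_le_tsum (fun j => h.anti (max_le_max_right j hr))
    (h.summable_line r)

lemma Good.S_summable (h : Good δ) : Summable (S δ) := h.summable_prod.prod

lemma Good.W_summable (h : Good δ) (r : ℕ) : Summable fun u : ℕ => S δ (max r u) :=
  Summable.of_nonneg_of_le (fun _ => h.S_nonneg _) (fun _ => h.S_anti (le_max_right _ _))
    h.S_summable

lemma Good.W_nonneg (h : Good δ) (r : ℕ) : 0 ≤ W δ r := tsum_nonneg (fun _ => h.S_nonneg _)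

lemma Good.W_tendsto (h : Good δ) : Tendsto (W δ) atTop (𝓝 0) := by
  have h0 : Tendsto (fun r => ∑' u : ℕ, S δ (max r u)) atTop (𝓝 (∑' _ : ℕ, (0 : ℝ))) := by
    refine tendsto_tsum_of_dominated_convergence (bound := S δ) h.S_summable ?_ ?_
    · intro u
      have h1 := h.S_summable.tendsto_atTop_zero
      refine h1.comp ?_
      exact tendsto_atTop_mono (fun r => le_max_left r u) tendsto_id
    · refine Filter.Eventually.of_forall (fun r u => ?_)
      rw [Real.norm_of_nonneg (h.S_nonneg _)]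
      exact h.S_anti (le_max_right _ _)
  rw [tsum_zero] at h0
  exact h0

/-- sum of a nonnegative summable sequence of `nd i p` over a finite set of `i` -/
lemma sum_nd_le {f : ℕ → ℝ} (hf : ∀ j, 0 ≤ f j) (hs : Summable f) (F : Finset ℕ) (p : ℕ) :
    ∑ i ∈ F, f (nd i p) ≤ 2 * ∑' j, f j := by
  rw [← sum_filter_add_sum_filter_not F (fun i => p ≤ i)]
  have h1 : ∑ i ∈ F.filter (fun i => p ≤ i), f (nd i p) ≤ ∑' j, f j := by
    have : ∑ i ∈ F.filter (fun i => p ≤ i), f (nd i p) =
        ∑ j ∈ (F.filter (fun i => p ≤ i)).image (fun i => nd i p), f j := by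
      rw [sum_image]
      intro a ha b hb hab
      have ha := (mem_filter.mp ha).2
      have hb := (mem_filter.mp hb).2
      simp only [nd] at hab ha hb
      omega
    rw [this]
    exact hs.sum_le_tsum _ (fun _ _ => hf _)
  have h2 : ∑ i ∈ F.filter (fun i => ¬ p ≤ i), f (nd i p) ≤ ∑' j, f j := by
    have : ∑ i ∈ F.filter (fun i => ¬ p ≤ i), f (nd i p) =
        ∑ j ∈ (F.filter (fun i => ¬ p ≤ i)).image (fun i => nd i p), f j := by
      rw [sum_image]
      intro a ha b hb hab
      have ha := (mem_filter.mp ha).2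
      have hb := (mem_filter.mp hb).2
      simp only [nd] at hab ha hb
      omega
    rw [this]
    exact hs.sum_le_tsum _ (fun _ _ => hf _)
  linarith

/-- same with a finite range -/
lemma sum_nd_range_le {f : ℕ → ℝ} (hf : ∀ j, 0 ≤ f j) (R t : ℕ) (ht : t < R) :
    ∑ t' ∈ range R, f (nd t t') ≤ 2 * ∑ r ∈ range R, f r := by
  rw [← sum_filter_add_sum_filter_not (range R) (fun i => t ≤ i)]
  have h1 : ∑ i ∈ (range R).filter (fun i => t ≤ i), f (nd t i) ≤ ∑ r ∈ range R, f r := by
    have : ∑ i ∈ (range R).filter (fun i => t ≤ i), f (nd t i) =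
        ∑ j ∈ ((range R).filter (fun i => t ≤ i)).image (fun i => nd t i), f j := by
      rw [sum_image]
      intro a ha b hb hab
      have ha := (mem_filter.mp ha).2
      have hb := (mem_filter.mp hb).2
      simp only [nd] at hab ha hb
      omega
    rw [this]
    apply sum_le_sum_of_subset_of_nonneg
    · intro j hj
      rw [mem_image] at hj
      obtain ⟨i, hi, rfl⟩ := hj
      rw [mem_filter, mem_range] at hi
      rw [mem_range]; unfold nd; omega
    · intro _ _ _; exact hf _
  have h2 : ∑ i ∈ (range R).filter (fun i => ¬ t ≤ i), f (nd t i) ≤ ∑ r ∈ range R, f r := by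
    have : ∑ i ∈ (range R).filter (fun i => ¬ t ≤ i), f (nd t i) =
        ∑ j ∈ ((range R).filter (fun i => ¬ t ≤ i)).image (fun i => nd t i), f j := by
      rw [sum_image]
      intro a ha b hb hab
      have ha := (mem_filter.mp ha).2
      have hb := (mem_filter.mp hb).2
      simp only [nd] at hab ha hb
      omega
    rw [this]
    apply sum_le_sum_of_subset_of_nonneg
    · intro j hj
      rw [mem_image] at hj
      obtain ⟨i, hi, rfl⟩ := hj
      rw [mem_filter, mem_range] at hi
      rw [mem_range]; unfold nd; omega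
    · intro _ _ _; exact hf _
  linarith

/-- the final bound for the variance of averaged height differences -/
noncomputable def kap (δ : ℕ → ℝ) (R : ℕ) : ℝ :=
  (20 / (R : ℝ) ^ 2) * ∑ t ∈ range R, ∑ t' ∈ range R, W δ (nd t t')

lemma Good.kap_nonneg (h : Good δ) (R : ℕ) : 0 ≤ kap δ R := by
  unfold kap
  exact mul_nonneg (by positivity) (sum_nonneg fun _ _ => sum_nonneg fun _ _ => h.W_nonneg _)

lemma Good.kap_tendsto (h : Good δ) : Tendsto (kap δ) atTop (𝓝 0) := by
  have hc := h.W_tendsto.cesaro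
  have hc' : Tendsto (fun n : ℕ => 40 * ((n : ℝ)⁻¹ * ∑ i ∈ range n, W δ i)) atTop (𝓝 0) := by
    simpa using hc.const_mul 40
  refine squeeze_zero' (Filter.Eventually.of_forall h.kap_nonneg) ?_ hc'
  filter_upwards [eventually_gt_atTop 0] with R hR
  unfold kap
  have h1 : ∑ t ∈ range R, ∑ t' ∈ range R, W δ (nd t t') ≤
      ∑ _t ∈ range R, 2 * ∑ r ∈ range R, W δ r :=
    sum_le_sum (fun t ht => sum_nd_range_le h.W_nonneg R t (mem_range.mp ht))
  rw [sum_const, card_range, nsmul_eq_mul] at h1
  have hR' : (0 : ℝ) < R := by exact_mod_cast hR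
  calc (20 / (R : ℝ) ^ 2) * ∑ t ∈ range R, ∑ t' ∈ range R, W δ (nd t t')
      ≤ (20 / (R : ℝ) ^ 2) * (R * (2 * ∑ r ∈ range R, W δ r)) :=
        mul_le_mul_of_nonneg_left h1 (by positivity)
    _ = 40 * ((R : ℝ)⁻¹ * ∑ i ∈ range R, W δ i) := by
        field_simp
        ring

end Pool.Agent.H65.FC
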