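import Mathlib
import Pool.Agent.H65.FC.Sum

/-! A function on a square box whose gradient is at most `δ` of the distance to a point
varies little outside a ball around that point. -/

namespace Pool.Agent.H65.FC

open Finset Filter Topology

/-- gradient bound on the box `[0,L)^2` around the point `(p,q)` -/
structure Grad (δ : ℕ → ℝ) (L p q : ℕ) (Ψ : ℕ → ℕ → ℝ) : Prop where
  hor : ∀ i j, i + 1 < L → j < L → |Ψ (i + 1) j - Ψ i j| ≤ δ (max (nd i p) (nd j q))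
  ver : ∀ i j, i < L → j + 1 < L → |Ψ i (j + 1) - Ψ i j| ≤ δ (max (nd i p) (nd j q))

variable {δ : ℕ → ℝ} {L p q : ℕ} {Ψ : ℕ → ℕ → ℝ}

lemma Grad.swap (h : Grad δ L p q Ψ) : Grad δ L q p (fun i j => Ψ j i) := by
  constructor
  · intro i j hi hj
    rw [max_comm]
    exact h.ver j i hj hi
  · intro i j hi hj
    rw [max_comm]
    exact h.hor j i hj hi

/-- horizontal move -/
lemma Grad.hmove (h : Grad δ L p q Ψ) (hδ : Good δ) (r j i₁ i₂ : ℕ) (hj : j < L) (h12 : i₁ ≤ i₂)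
    (h2 : i₂ < L) (hr : ∀ i, i₁ ≤ i → i < i₂ → r ≤ max (nd i p) (nd j q)) :
    |Ψ i₂ j - Ψ i₁ j| ≤ 2 * S δ r := by
  have h1 : Ψ i₂ j - Ψ i₁ j = ∑ i ∈ Ico i₁ i₂, (Ψ (i + 1) j - Ψ i j) := by
    rw [Finset.sum_Ico_sub (fun i => Ψ i j) h12]
  rw [h1]
  calc |∑ i ∈ Ico i₁ i₂, (Ψ (i + 1) j - Ψ i j)| ≤ ∑ i ∈ Ico i₁ i₂, |Ψ (i + 1) j - Ψ i j| :=
        abs_sum_le_sum_abs _ _
    _ ≤ ∑ i ∈ Ico i₁ i₂, δ (max r (nd i p)) := by
        apply sum_le_sum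
        intro i hi
        rw [mem_Ico] at hi
        refine (h.hor i j (by omega) hj).trans (hδ.anti ?_)
        exact max_le (hr i hi.1 hi.2) (le_max_left _ _)
    _ ≤ 2 * ∑' j, δ (max r j) :=
        sum_nd_le (f := fun j => δ (max r j)) (fun _ => hδ.nonneg _) (hδ.summable_line r) _ p

/-- horizontal move in either direction -/
lemma Grad.hmove' (h : Grad δ L p q Ψ) (hδ : Good δ) (r j i₁ i₂ : ℕ) (hj : j < L) (h1 : i₁ < L)
    (h2 : i₂ < L) (hr : ∀ i, (i₁ ≤ i ∧ i < i₂) ∨ (i₂ ≤ i ∧ i < i₁) → r ≤ max (nd i p) (nd j q)) :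
    |Ψ i₂ j - Ψ i₁ j| ≤ 2 * S δ r := by
  rcases le_total i₁ i₂ with h12 | h12
  · exact h.hmove hδ r j i₁ i₂ hj h12 h2 (fun i a b => hr i (Or.inl ⟨a, b⟩))
  · rw [abs_sub_comm]
    exact h.hmove hδ r j i₂ i₁ hj h12 h1 (fun i a b => hr i (Or.inr ⟨a, b⟩))

lemma Grad.vmove' (h : Grad δ L p q Ψ) (hδ : Good δ) (r i j₁ j₂ : ℕ) (hi : i < L) (h1 : j₁ < L)
    (h2 : j₂ < L) (hr : ∀ j, (j₁ ≤ j ∧ j < j₂) ∨ (j₂ ≤ j ∧ j < j₁) → r ≤ max (nd i p) (nd j q)) :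
    |Ψ i j₂ - Ψ i j₁| ≤ 2 * S δ r :=
  h.swap.hmove' hδ r i j₁ j₂ hi h1 h2 (fun j hj => by rw [max_comm]; exact hr j hj)

/-- the corners reachable from a far point -/
lemma Grad.corner (h : Grad δ L p q Ψ) (hδ : Good δ) (r a b : ℕ) (ha : a < L) (hb : b < L) :
    (p + r ≤ a → ∀ c, c = 0 ∨ c = L - 1 → |Ψ (L - 1) c - Ψ a b| ≤ 4 * S δ r) ∧
    (a + r ≤ p → ∀ c, c = 0 ∨ c = L - 1 → |Ψ 0 c - Ψ a b| ≤ 4 * S δ r) ∧
    (q + r ≤ b → ∀ c, c = 0 ∨ c = L - 1 → |Ψ c (L - 1) - Ψ a b| ≤ 4 * S δ r) ∧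
    (b + r ≤ q → ∀ c, c = 0 ∨ c = L - 1 → |Ψ c 0 - Ψ a b| ≤ 4 * S δ r) := by
  refine ⟨?_, ?_, ?_, ?_⟩
  · intro hp c hc
    have hcL : c < L := by omega
    have h1 := h.vmove' hδ r a b c ha hb hcL (fun j _ => le_max_of_le_left (by unfold nd; omega))
    have h2 := h.hmove' hδ r c a (L - 1) hcL ha (by omega)
      (fun i hi => le_max_of_le_left (by unfold nd; omega))
    calc |Ψ (L - 1) c - Ψ a b| = |(Ψ (L - 1) c - Ψ a c) + (Ψ a c - Ψ a b)| := by ring_nf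
      _ ≤ |Ψ (L - 1) c - Ψ a c| + |Ψ a c - Ψ a b| := abs_add_le _ _
      _ ≤ 4 * S δ r := by linarith
  · intro hp c hc
    have hcL : c < L := by omega
    have h1 := h.vmove' hδ r a b c ha hb hcL (fun j _ => le_max_of_le_left (by unfold nd; omega))
    have h2 := h.hmove' hδ r c a 0 hcL ha (by omega)
      (fun i hi => le_max_of_le_left (by unfold nd; omega))
    calc |Ψ 0 c - Ψ a b| = |(Ψ 0 c - Ψ a c) + (Ψ a c - Ψ a b)| := by ring_nf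
      _ ≤ |Ψ 0 c - Ψ a c| + |Ψ a c - Ψ a b| := abs_add_le _ _
      _ ≤ 4 * S δ r := by linarith
  · intro hp c hc
    have hcL : c < L := by omega
    have h1 := h.hmove' hδ r b a c hb ha hcL (fun j _ => le_max_of_le_right (by unfold nd; omega))
    have h2 := h.vmove' hδ r c b (L - 1) hcL hb (by omega)
      (fun i hi => le_max_of_le_right (by unfold nd; omega))
    calc |Ψ c (L - 1) - Ψ a b| = |(Ψ c (L - 1) - Ψ c b) + (Ψ c b - Ψ a b)| := by ring_nf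
      _ ≤ |Ψ c (L - 1) - Ψ c b| + |Ψ c b - Ψ a b| := abs_add_le _ _
      _ ≤ 4 * S δ r := by linarith
  · intro hp c hc
    have hcL : c < L := by omega
    have h1 := h.hmove' hδ r b a c hb ha hcL (fun j _ => le_max_of_le_right (by unfold nd; omega))
    have h2 := h.vmove' hδ r c b 0 hcL hb (by omega)
      (fun i hi => le_max_of_le_right (by unfold nd; omega))
    calc |Ψ c 0 - Ψ a b| = |(Ψ c 0 - Ψ c b) + (Ψ c b - Ψ a b)| := by ring_nf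
      _ ≤ |Ψ c 0 - Ψ c b| + |Ψ c b - Ψ a b| := abs_add_le _ _
      _ ≤ 4 * S δ r := by linarith

lemma tri3 {x y z w : ℝ} {s : ℝ} (h1 : |y - x| ≤ 4 * s) (h2 : |z - y| ≤ 2 * s)
    (h3 : |z - w| ≤ 4 * s) : |x - w| ≤ 10 * s := by
  rw [abs_le] at *
  constructor <;> linarith [h1.1, h1.2, h2.1, h2.2, h3.1, h3.2]

lemma tri2 {x y w : ℝ} {s : ℝ} (hs : 0 ≤ s) (h1 : |y - x| ≤ 4 * s)
    (h3 : |y - w| ≤ 4 * s) : |x - w| ≤ 10 * s := by
  rw [abs_le] at *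
  constructor <;> linarith [h1.1, h1.2, h3.1, h3.2]

/-- **Outside a ball the variation is small.** -/
theorem Grad.far (h : Grad δ L p q Ψ) (hδ : Good δ) (hp : p < L) (hq : q < L) (r a b a' b' : ℕ)
    (ha : a < L) (hb : b < L) (ha' : a' < L) (hb' : b' < L)
    (hr : r ≤ max (nd a p) (nd b q)) (hr' : r ≤ max (nd a' p) (nd b' q)) :
    |Ψ a b - Ψ a' b'| ≤ 10 * S δ r := by
  have hS := hδ.S_nonneg r
  obtain ⟨c1, c2, c3, c4⟩ := h.corner hδ r a b ha hb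
  obtain ⟨d1, d2, d3, d4⟩ := h.corner hδ r a' b' ha' hb'
  have e1 : p + r ≤ a ∨ a + r ≤ p ∨ q + r ≤ b ∨ b + r ≤ q := by
    rcases le_max_iff.mp hr with h1 | h1 <;> unfold nd at h1 <;> omega
  have e2 : p + r ≤ a' ∨ a' + r ≤ p ∨ q + r ≤ b' ∨ b' + r ≤ q := by
    rcases le_max_iff.mp hr' with h1 | h1 <;> unfold nd at h1 <;> omega
  -- the link between the two vertical sides
  have hlink : p + r ≤ L - 1 → r ≤ p → ∃ c, (c = 0 ∨ c = L - 1) ∧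
      |Ψ (L - 1) c - Ψ 0 c| ≤ 2 * S δ r := by
    intro h1 h2
    by_cases h3 : r ≤ q
    · refine ⟨0, Or.inl rfl, h.hmove' hδ r 0 0 (L - 1) (by omega) (by omega) (by omega) ?_⟩
      intro i _
      exact le_max_of_le_right (by unfold nd; omega)
    · refine ⟨L - 1, Or.inr rfl, h.hmove' hδ r (L - 1) 0 (L - 1) (by omega) (by omega)
        (by omega) ?_⟩
      intro i _
      exact le_max_of_le_right (by unfold nd; omega)
  have vlink : q + r ≤ L - 1 → r ≤ q → ∃ c, (c = 0 ∨ c = L - 1) ∧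
      |Ψ c (L - 1) - Ψ c 0| ≤ 2 * S δ r := by
    intro h1 h2
    by_cases h3 : r ≤ p
    · refine ⟨0, Or.inl rfl, h.vmove' hδ r 0 0 (L - 1) (by omega) (by omega) (by omega) ?_⟩
      intro i _
      exact le_max_of_le_left (by unfold nd; omega)
    · refine ⟨L - 1, Or.inr rfl, h.vmove' hδ r (L - 1) 0 (L - 1) (by omega) (by omega)
        (by omega) ?_⟩
      intro i _
      exact le_max_of_le_left (by unfold nd; omega)
  rcases e1 with e1 | e1 | e1 | e1 <;> rcases e2 with e2 | e2 | e2 | e2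
  · exact tri2 hS (c1 e1 0 (Or.inl rfl)) (d1 e2 0 (Or.inl rfl))
  · obtain ⟨c, hc, hl⟩ := hlink (by omega) (by omega)
    rw [abs_sub_comm] at hl
    exact tri3 (c1 e1 c hc) hl (d2 e2 c hc)
  · exact tri2 hS (c1 e1 (L - 1) (Or.inr rfl)) (d3 e2 (L - 1) (Or.inr rfl))
  · exact tri2 hS (c1 e1 0 (Or.inl rfl)) (d4 e2 (L - 1) (Or.inr rfl))
  · obtain ⟨c, hc, hl⟩ := hlink (by omega) (by omega)
    exact tri3 (c2 e1 c hc) hl (d1 e2 c hc)
  · exact tri2 hS (c2 e1 0 (Or.inl rfl)) (d2 e2 0 (Or.inl rfl))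
  · exact tri2 hS (c2 e1 (L - 1) (Or.inr rfl)) (d3 e2 0 (Or.inl rfl))
  · exact tri2 hS (c2 e1 0 (Or.inl rfl)) (d4 e2 0 (Or.inl rfl))
  · exact tri2 hS (c3 e1 (L - 1) (Or.inr rfl)) (d1 e2 (L - 1) (Or.inr rfl))
  · exact tri2 hS (c3 e1 0 (Or.inl rfl)) (d2 e2 (L - 1) (Or.inr rfl))
  · exact tri2 hS (c3 e1 0 (Or.inl rfl)) (d3 e2 0 (Or.inl rfl))
  · obtain ⟨c, hc, hl⟩ := vlink (by omega) (by omega)
    rw [abs_sub_comm] at hl
    exact tri3 (c3 e1 c hc) hl (d4 e2 c hc)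
  · exact tri2 hS (c4 e1 (L - 1) (Or.inr rfl)) (d1 e2 0 (Or.inl rfl))
  · exact tri2 hS (c4 e1 0 (Or.inl rfl)) (d2 e2 0 (Or.inl rfl))
  · obtain ⟨c, hc, hl⟩ := vlink (by omega) (by omega)
    exact tri3 (c4 e1 c hc) hl (d3 e2 c hc)
  · exact tri2 hS (c4 e1 0 (Or.inl rfl)) (d4 e2 0 (Or.inl rfl))

end Pool.Agent.H65.FC
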