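import Mathlib
import Pool.Agent.H65.FC.Path

/-! A random function on a square box whose increments have summable correlations is rigid:
the averages over two `R × R` boxes differ by a random variable of small second moment. -/

namespace Pool.Agent.H65.FC

open Finset Filter Topology

variable {Ω : Type*} [Fintype Ω]

/-- expectation with respect to a weight -/
noncomputable def Ex (w : Ω → ℝ) (u : Ω → ℝ) : ℝ := ∑ ω, w ω * u ω

lemma Ex_add (w u v : Ω → ℝ) : Ex w (fun ω => u ω + v ω) = Ex w u + Ex w v := by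
  simp [Ex, mul_add, sum_add_distrib]

lemma Ex_sub (w u v : Ω → ℝ) : Ex w (fun ω => u ω - v ω) = Ex w u - Ex w v := by
  simp [Ex, mul_sub, sum_sub_distrib]

lemma Ex_smul (w u : Ω → ℝ) (c : ℝ) : Ex w (fun ω => c * u ω) = c * Ex w u := by
  simp only [Ex, mul_sum]
  exact sum_congr rfl (fun _ _ => by ring)

lemma Ex_sum {ι : Type*} (w : Ω → ℝ) (F : Finset ι) (u : ι → Ω → ℝ) :
    Ex w (fun ω => ∑ i ∈ F, u i ω) = ∑ i ∈ F, Ex w (u i) := by
  simp only [Ex, mul_sum]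
  rw [sum_comm]

lemma Ex_mono {w : Ω → ℝ} (hw : ∀ ω, 0 ≤ w ω) {u v : Ω → ℝ} (h : ∀ ω, u ω ≤ v ω) :
    Ex w u ≤ Ex w v :=
  sum_le_sum (fun ω _ => mul_le_mul_of_nonneg_left (h ω) (hw ω))

lemma Ex_mono' {w : Ω → ℝ} (hw : ∀ ω, 0 ≤ w ω) {u v : Ω → ℝ} (h : ∀ ω, w ω ≠ 0 → u ω ≤ v ω) :
    Ex w u ≤ Ex w v := by
  refine sum_le_sum (fun ω _ => ?_)
  by_cases h0 : w ω = 0
  · rw [h0]; simp
  · exact mul_le_mul_of_nonneg_left (h ω h0) (hw ω)

lemma Ex_congr {w : Ω → ℝ} {u v : Ω → ℝ} (h : ∀ ω, w ω ≠ 0 → u ω = v ω) :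
    Ex w u = Ex w v := by
  refine sum_congr rfl (fun ω _ => ?_)
  by_cases h0 : w ω = 0
  · rw [h0]; simp
  · rw [h ω h0]

lemma Ex_sum_sum {ι κ : Type*} (w : Ω → ℝ) (F : Finset ι) (G : Finset κ) (u : ι → κ → Ω → ℝ) :
    Ex w (fun ω => ∑ i ∈ F, ∑ j ∈ G, u i j ω) = ∑ i ∈ F, ∑ j ∈ G, Ex w (u i j) := by
  rw [Ex_sum]
  exact sum_congr rfl (fun i _ => Ex_sum w G (u i))

/-- second moment hypothesis on the increments of `φ` -/
structure Inc (δ : ℕ → ℝ) (L : ℕ) (w : Ω → ℝ) (φ : Ω → ℕ → ℕ → ℝ) : Prop where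
  hh : ∀ i j i' j', i + 1 < L → j < L → i' + 1 < L → j' < L →
    |Ex w (fun ω => (φ ω (i + 1) j - φ ω i j) * (φ ω (i' + 1) j' - φ ω i' j'))| ≤
      δ (max (nd i' i) (nd j' j))
  hv : ∀ i j i' j', i + 1 < L → j < L → i' < L → j' + 1 < L →
    |Ex w (fun ω => (φ ω (i + 1) j - φ ω i j) * (φ ω i' (j' + 1) - φ ω i' j'))| ≤
      δ (max (nd i' i) (nd j' j))
  vv : ∀ i j i' j', i < L → j + 1 < L → i' < L → j' + 1 < L →
    |Ex w (fun ω => (φ ω i (j + 1) - φ ω i j) * (φ ω i' (j' + 1) - φ ω i' j'))| ≤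
      δ (max (nd i' i) (nd j' j))

variable {δ : ℕ → ℝ} {L : ℕ} {w : Ω → ℝ} {φ : Ω → ℕ → ℕ → ℝ}

lemma Inc.swap (h : Inc δ L w φ) : Inc δ L w (fun ω i j => φ ω j i) := by
  constructor
  · intro i j i' j' h1 h2 h3 h4
    rw [max_comm]
    exact h.vv j i j' i' h2 h1 h4 h3
  · intro i j i' j' h1 h2 h3 h4
    have := h.hv j' i' j i h4 h3 h2 h1
    rw [max_comm, nd_comm j' j, nd_comm i' i]
    refine le_trans (le_of_eq ?_) this
    congr 1
    refine Ex_congr (fun ω _ => ?_)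
    ring
  · intro i j i' j' h1 h2 h3 h4
    rw [max_comm]
    exact h.hh j i j' i' h2 h1 h4 h3

/-- the correlation of one horizontal increment with the height function has small gradient -/
lemma Inc.grad (h : Inc δ L w φ) (k j : ℕ) (hk : k + 1 < L) (hj : j < L) :
    Grad δ L k j (fun a b => Ex w (fun ω => (φ ω (k + 1) j - φ ω k j) * φ ω a b)) := by
  constructor
  · intro a b ha hb
    have := h.hh k j a b hk hj ha hb
    refine le_trans (le_of_eq ?_) this
    congr 1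
    rw [← Ex_sub]
    refine Ex_congr (fun ω _ => ?_)
    ring
  · intro a b ha hb
    have := h.hv k j a b hk hj ha hb
    refine le_trans (le_of_eq ?_) this
    congr 1
    rw [← Ex_sub]
    refine Ex_congr (fun ω _ => ?_)
    ring

/-- horizontal differences in two rows -/
lemma Inc.rows (h : Inc δ L w φ) (hδ : Good δ) (i i' j j' : ℕ) (hii : i ≤ i') (hi' : i' < L)
    (hj : j < L) (hj' : j' < L) :
    |Ex w (fun ω => (φ ω i' j - φ ω i j) * (φ ω i' j' - φ ω i j'))| ≤ 20 * W δ (nd j j') := by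
  have h1 : Ex w (fun ω => (φ ω i' j - φ ω i j) * (φ ω i' j' - φ ω i j')) =
      ∑ k ∈ Ico i i', Ex w (fun ω => (φ ω (k + 1) j - φ ω k j) * (φ ω i' j' - φ ω i j')) := by
    rw [← Ex_sum]
    refine Ex_congr (fun ω _ => ?_)
    rw [← sum_mul, Finset.sum_Ico_sub (fun k => φ ω k j) hii]
  set r := nd j j' with hr
  have hS := hδ.S_nonneg
  have h2 : ∀ k ∈ Ico i i',
      |Ex w (fun ω => (φ ω (k + 1) j - φ ω k j) * (φ ω i' j' - φ ω i j'))| ≤
        10 * (S δ (max r (nd k i)) + S δ (max r (nd k i'))) := by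
    intro k hk
    rw [mem_Ico] at hk
    have hg := h.grad k j (by omega) hj
    have h3 := hg.far hδ (by omega) hj (max r (min (nd k i) (nd k i'))) i' j' i j' hi' hj'
      (by omega) hj'
      (by
        rw [nd_comm i' k, nd_comm j' j, ← hr, max_comm]
        exact max_le_max_right _ (min_le_right _ _))
      (by
        rw [nd_comm i k, nd_comm j' j, ← hr, max_comm]
        exact max_le_max_right _ (min_le_left _ _))
    rw [← Ex_sub] at h3
    have h4 : Ex w (fun ω => (φ ω (k + 1) j - φ ω k j) * (φ ω i' j' - φ ω i j')) =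
        Ex w (fun ω => (φ ω (k + 1) j - φ ω k j) * φ ω i' j' -
          (φ ω (k + 1) j - φ ω k j) * φ ω i j') :=
      Ex_congr (fun ω _ => by ring)
    rw [h4]
    refine h3.trans ?_
    rcases min_choice (nd k i) (nd k i') with hm | hm <;> rw [hm]
    · nlinarith [hS (max r (nd k i'))]
    · nlinarith [hS (max r (nd k i))]
  rw [h1]
  calc |∑ k ∈ Ico i i', Ex w (fun ω => (φ ω (k + 1) j - φ ω k j) * (φ ω i' j' - φ ω i j'))|
      ≤ ∑ k ∈ Ico i i', |Ex w (fun ω => (φ ω (k + 1) j - φ ω k j) * (φ ω i' j' - φ ω i j'))| :=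
        abs_sum_le_sum_abs _ _
    _ ≤ ∑ k ∈ Ico i i', 10 * (S δ (max r (nd k i)) + S δ (max r (nd k i'))) := sum_le_sum h2
    _ = 10 * (∑ k ∈ Ico i i', S δ (max r (nd k i)) + ∑ k ∈ Ico i i', S δ (max r (nd k i'))) := by
        rw [← mul_sum, sum_add_distrib]
    _ ≤ 10 * (W δ r + W δ r) := by
        have e1 : ∑ k ∈ Ico i i', S δ (max r (nd k i)) ≤ W δ r := by
          have : ∑ k ∈ Ico i i', S δ (max r (nd k i)) =
              ∑ u ∈ (Ico i i').image (fun k => nd k i), S δ (max r u) := by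
            rw [sum_image]
            intro a ha b hb hab
            have ha := mem_Ico.mp ha
            have hb := mem_Ico.mp hb
            simp only [nd] at hab
            omega
          rw [this]
          exact (hδ.W_summable r).sum_le_tsum _ (fun _ _ => hS _)
        have e2 : ∑ k ∈ Ico i i', S δ (max r (nd k i')) ≤ W δ r := by
          have : ∑ k ∈ Ico i i', S δ (max r (nd k i')) =
              ∑ u ∈ (Ico i i').image (fun k => nd k i'), S δ (max r u) := by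
            rw [sum_image]
            intro a ha b hb hab
            have ha := mem_Ico.mp ha
            have hb := mem_Ico.mp hb
            simp only [nd] at hab
            omega
          rw [this]
          exact (hδ.W_summable r).sum_le_tsum _ (fun _ _ => hS _)
        linarith
    _ = 20 * W δ r := by ring

/-- average over a column segment -/
noncomputable def colAv (φ : Ω → ℕ → ℕ → ℝ) (R b : ℕ) (i : ℕ) (ω : Ω) : ℝ :=
  (1 / (R : ℝ)) * ∑ t ∈ range R, φ ω i (b + t)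

/-- average over a box -/
noncomputable def boxAv (φ : Ω → ℕ → ℕ → ℝ) (R a b : ℕ) (ω : Ω) : ℝ :=
  (1 / (R : ℝ)) * ∑ s ∈ range R, colAv φ R b (a + s) ω

lemma Inc.col (h : Inc δ L w φ) (hδ : Good δ) (R b i i' : ℕ) (hii : i ≤ i') (hi' : i' < L)
    (hb : b + R ≤ L) :
    Ex w (fun ω => (colAv φ R b i' ω - colAv φ R b i ω) ^ 2) ≤ kap δ R := by
  have h1 : Ex w (fun ω => (colAv φ R b i' ω - colAv φ R b i ω) ^ 2) =
      (1 / (R : ℝ)) ^ 2 * ∑ t ∈ range R, ∑ t' ∈ range R,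
        Ex w (fun ω => (φ ω i' (b + t) - φ ω i (b + t)) *
          (φ ω i' (b + t') - φ ω i (b + t'))) := by
    rw [← Ex_sum_sum, ← Ex_smul]
    refine Ex_congr (fun ω _ => ?_)
    unfold colAv
    rw [← mul_sub, ← sum_sub_distrib, mul_pow, sq (∑ t ∈ range R, _), sum_mul_sum]
  rw [h1]
  unfold kap
  have h2 : ∑ t ∈ range R, ∑ t' ∈ range R,
        Ex w (fun ω => (φ ω i' (b + t) - φ ω i (b + t)) *
          (φ ω i' (b + t') - φ ω i (b + t'))) ≤
      ∑ t ∈ range R, ∑ t' ∈ range R, 20 * W δ (nd t t') := by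
    refine sum_le_sum (fun t ht => sum_le_sum (fun t' ht' => ?_))
    rw [mem_range] at ht ht'
    have := (abs_le.mp (h.rows hδ i i' (b + t) (b + t') hii hi' (by omega) (by omega))).2
    have e : nd (b + t) (b + t') = nd t t' := by unfold nd; omega
    rw [e] at this
    exact this
  calc (1 / (R : ℝ)) ^ 2 * ∑ t ∈ range R, ∑ t' ∈ range R,
        Ex w (fun ω => (φ ω i' (b + t) - φ ω i (b + t)) *
          (φ ω i' (b + t') - φ ω i (b + t')))
      ≤ (1 / (R : ℝ)) ^ 2 * ∑ t ∈ range R, ∑ t' ∈ range R, 20 * W δ (nd t t') :=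
        mul_le_mul_of_nonneg_left h2 (by positivity)
    _ = (20 / (R : ℝ) ^ 2) * ∑ t ∈ range R, ∑ t' ∈ range R, W δ (nd t t') := by
        simp only [← mul_sum]
        ring

lemma Inc.col' (h : Inc δ L w φ) (hδ : Good δ) (R b i i' : ℕ) (hi : i < L) (hi' : i' < L)
    (hb : b + R ≤ L) :
    Ex w (fun ω => (colAv φ R b i' ω - colAv φ R b i ω) ^ 2) ≤ kap δ R := by
  rcases le_total i i' with hii | hii
  · exact h.col hδ R b i i' hii hi' hb
  · have := h.col hδ R b i' i hii hi hb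
    refine le_trans (le_of_eq ?_) this
    refine Ex_congr (fun ω _ => ?_)
    ring

lemma Inc.boxH (h : Inc δ L w φ) (hδ : Good δ) (hw : ∀ ω, 0 ≤ w ω) (R a a' b : ℕ)
    (ha : a + R ≤ L) (ha' : a' + R ≤ L) (hb : b + R ≤ L) :
    Ex w (fun ω => (boxAv φ R a b ω - boxAv φ R a' b ω) ^ 2) ≤ kap δ R := by
  rcases Nat.eq_zero_or_pos R with hR | hR
  · subst hR
    simp [boxAv, kap, Ex]
  have hR' : (0 : ℝ) < R := by exact_mod_cast hR
  have h1 : Ex w (fun ω => (boxAv φ R a b ω - boxAv φ R a' b ω) ^ 2) ≤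
      Ex w (fun ω => (1 / (R : ℝ)) * ∑ s ∈ range R,
        (colAv φ R b (a + s) ω - colAv φ R b (a' + s) ω) ^ 2) := by
    refine Ex_mono hw (fun ω => ?_)
    unfold boxAv
    rw [← mul_sub, ← sum_sub_distrib, mul_pow]
    have := sq_sum_le_card_mul_sum_sq (s := range R)
      (f := fun s => colAv φ R b (a + s) ω - colAv φ R b (a' + s) ω)
    rw [card_range] at this
    calc (1 / (R : ℝ)) ^ 2 * (∑ s ∈ range R,
          (colAv φ R b (a + s) ω - colAv φ R b (a' + s) ω)) ^ 2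
        ≤ (1 / (R : ℝ)) ^ 2 * ((R : ℝ) * ∑ s ∈ range R,
          (colAv φ R b (a + s) ω - colAv φ R b (a' + s) ω) ^ 2) :=
          mul_le_mul_of_nonneg_left this (by positivity)
      _ = _ := by field_simp
  refine h1.trans ?_
  rw [Ex_smul, Ex_sum]
  have h2 : ∑ s ∈ range R, Ex w (fun ω => (colAv φ R b (a + s) ω - colAv φ R b (a' + s) ω) ^ 2) ≤
      ∑ _s ∈ range R, kap δ R := by
    refine sum_le_sum (fun s hs => ?_)
    rw [mem_range] at hs
    exact h.col' hδ R b (a' + s) (a + s) (by omega) (by omega) hb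
  rw [sum_const, card_range, nsmul_eq_mul] at h2
  calc (1 / (R : ℝ)) * ∑ s ∈ range R,
        Ex w (fun ω => (colAv φ R b (a + s) ω - colAv φ R b (a' + s) ω) ^ 2)
      ≤ (1 / (R : ℝ)) * (R * kap δ R) := mul_le_mul_of_nonneg_left h2 (by positivity)
    _ = kap δ R := by field_simp

omit [Fintype Ω] in
lemma boxAv_swap (φ : Ω → ℕ → ℕ → ℝ) (R a b : ℕ) (ω : Ω) :
    boxAv (fun ω i j => φ ω j i) R b a ω = boxAv φ R a b ω := by
  unfold boxAv colAv
  simp only [← mul_sum]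
  rw [sum_comm]

lemma Inc.boxV (h : Inc δ L w φ) (hδ : Good δ) (hw : ∀ ω, 0 ≤ w ω) (R a b b' : ℕ)
    (ha : a + R ≤ L) (hb : b + R ≤ L) (hb' : b' + R ≤ L) :
    Ex w (fun ω => (boxAv φ R a b ω - boxAv φ R a b' ω) ^ 2) ≤ kap δ R := by
  have := h.swap.boxH hδ hw R b b' a hb hb' ha
  simpa only [boxAv_swap] using this

/-- **Rigidity of box averages.** -/
theorem Inc.box (h : Inc δ L w φ) (hδ : Good δ) (hw : ∀ ω, 0 ≤ w ω) (R a b a' b' : ℕ)
    (ha : a + R ≤ L) (hb : b + R ≤ L) (ha' : a' + R ≤ L) (hb' : b' + R ≤ L) :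
    Ex w (fun ω => (boxAv φ R a b ω - boxAv φ R a' b' ω) ^ 2) ≤ 4 * kap δ R := by
  have h1 := h.boxH hδ hw R a a' b ha ha' hb
  have h2 := h.boxV hδ hw R a' b b' ha' hb hb'
  have h3 : Ex w (fun ω => (boxAv φ R a b ω - boxAv φ R a' b' ω) ^ 2) ≤
      Ex w (fun ω => 2 * (boxAv φ R a b ω - boxAv φ R a' b ω) ^ 2 +
        2 * (boxAv φ R a' b ω - boxAv φ R a' b' ω) ^ 2) := by
    refine Ex_mono hw (fun ω => ?_)
    nlinarith [sq_nonneg ((boxAv φ R a b ω - boxAv φ R a' b ω) -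
      (boxAv φ R a' b ω - boxAv φ R a' b' ω))]
  rw [Ex_add, Ex_smul, Ex_smul] at h3
  linarith

/-- the cosine of a rigid variable -/
theorem Ex_cos_ge (hw : ∀ ω, 0 ≤ w ω) (hw1 : ∑ ω, w ω = 1) (X : Ω → ℝ) :
    1 - (Real.pi ^ 2 / 2) * Ex w (fun ω => X ω ^ 2) ≤ Ex w (fun ω => Real.cos (Real.pi * X ω)) := by
  have h1 : Ex w (fun ω => 1 - (Real.pi ^ 2 / 2) * X ω ^ 2) ≤
      Ex w (fun ω => Real.cos (Real.pi * X ω)) := by
    refine Ex_mono hw (fun ω => ?_)
    have := Real.one_sub_sq_div_two_le_cos (x := Real.pi * X ω)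
    calc 1 - (Real.pi ^ 2 / 2) * X ω ^ 2 = 1 - (Real.pi * X ω) ^ 2 / 2 := by ring
      _ ≤ _ := this
  rw [Ex_sub, Ex_smul] at h1
  have h2 : Ex w (fun _ => (1 : ℝ)) = 1 := by simp [Ex, hw1]
  rw [h2] at h1
  exact h1

end Pool.Agent.H65.FC
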