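import Mathlib
import Pool.Agent.H65.FC.Var

/-! Proper 4-colourings of the triangular lattice box, height function, local observables. -/

namespace Pool.Agent.H65.FC

open Finset Filter Topology

/-- colourings of the box `{0,…,L-1}^2` with four colours -/
abbrev Colouring (L : ℕ) := Fin L × Fin L → Fin 4

/-- adjacency in the triangular lattice -/
def Adj {L : ℕ} (p q : Fin L × Fin L) : Prop :=
  (((p.1 : ℕ) : ℤ) - ((q.1 : ℕ) : ℤ), ((p.2 : ℕ) : ℤ) - ((q.2 : ℕ) : ℤ)) ∈
    ({(1, 0), (-1, 0), (0, 1), (0, -1), (1, -1), (-1, 1)} : Set (ℤ × ℤ))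

/-- proper colourings -/
def Proper {L : ℕ} (f : Colouring L) : Prop :=
  ∀ p q : Fin L × Fin L, Adj p q → f p ≠ f q

/-- A probability law on the proper 4-colourings of the box which is invariant under all
permutations of the colours. -/
structure SymLaw {L : ℕ} (w : Colouring L → ℝ) : Prop where
  nonneg : ∀ f, 0 ≤ w f
  total : ∑ f, w f = 1
  proper : ∀ f, w f ≠ 0 → Proper f
  symm : ∀ (σ : Equiv.Perm (Fin 4)) (f : Colouring L), w (fun p => σ (f p)) = w f

/-- total extension of a colouring -/
def ext {L : ℕ} (f : Colouring L) (i j : ℕ) : Fin 4 :=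
  if h : i < L ∧ j < L then f (⟨i, h.1⟩, ⟨j, h.2⟩) else 0

/-- the signed type of an edge with end colours `a`, `b` -/
def sg (a b : Fin 4) : ℤ := (![![0, 0, 1, -1], ![0, 0, -1, 1], ![1, -1, 0, 0], ![-1, 1, 0, 0]] :
  Fin 4 → Fin 4 → ℤ) a b

/-- the class of a colour -/
def cl (a : Fin 4) : ℤ := (![0, 0, 1, 1] : Fin 4 → ℤ) a

lemma curl' : ∀ a b c d : Fin 4, (a ≠ b ∧ a ≠ c ∧ b ≠ c ∧ b ≠ d ∧ c ≠ d) →
    sg a b - sg b d = -sg a c + sg c d := by decide

lemma curl (a b c d : Fin 4) (h1 : a ≠ b) (h2 : a ≠ c) (h3 : b ≠ c) (h4 : b ≠ d) (h5 : c ≠ d) :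
    sg a b - sg b d = -sg a c + sg c d := curl' a b c d ⟨h1, h2, h3, h4, h5⟩

lemma sg_cl : ∀ a b : Fin 4, (sg a b - (cl b - cl a)) % 2 = 0 := by decide

lemma sg_abs : ∀ a b : Fin 4, |sg a b| ≤ 1 := by decide

/-- the colour translation exchanging the classes -/
def tau : Equiv.Perm (Fin 4) := Equiv.addRight 2

lemma sg_tau : ∀ a b : Fin 4, sg (tau a) (tau b) = sg a b := by decide

lemma cl_tau : ∀ a : Fin 4, cl (tau a) = 1 - cl a := by decide

/-- the transposition of the colours 2 and 3 -/
def rho : Equiv.Perm (Fin 4) := Equiv.swap 2 3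

lemma sg_rho : ∀ a b : Fin 4, sg (rho a) (rho b) = - sg a b := by decide

/-- the cyclic permutation of the colours 1, 2, 3 -/
def cyc : Equiv.Perm (Fin 4) := Equiv.swap 1 2 * Equiv.swap 2 3

/-- two edges with end colours `a, b` and `c, d` have the same type: the two pairs are equal
or disjoint -/
def SameType (a b c d : Fin 4) : Prop :=
  ({a, b} : Finset (Fin 4)) = {c, d} ∨ Disjoint ({a, b} : Finset (Fin 4)) {c, d}

instance : DecidableRel fun (x y : Fin 4 × Fin 4) => SameType x.1 x.2 y.1 y.2 := fun _ _ => by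
  unfold SameType; infer_instance

instance (a b c d : Fin 4) : Decidable (SameType a b c d) := by
  unfold SameType; infer_instance

lemma sg_cyc : ∀ a b c d : Fin 4, a ≠ b → c ≠ d →
    sg a b * sg c d + sg (cyc a) (cyc b) * sg (cyc c) (cyc d) +
      sg (cyc (cyc a)) (cyc (cyc b)) * sg (cyc (cyc c)) (cyc (cyc d)) =
      3 * (if SameType a b c d then 1 else 0) - 1 := by decide

/-- the height function -/
def hgt {L : ℕ} (f : Colouring L) (i j : ℕ) : ℤ :=
  ∑ k ∈ range i, sg (ext f k 0) (ext f (k + 1) 0) - ∑ k ∈ range j, sg (ext f i k) (ext f i (k + 1))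

variable {L : ℕ}

lemma hgt_ver (f : Colouring L) (i j : ℕ) :
    hgt f i (j + 1) - hgt f i j = - sg (ext f i j) (ext f i (j + 1)) := by
  unfold hgt
  rw [sum_range_succ _ j]
  ring

lemma ext_of_lt (f : Colouring L) {i j : ℕ} (hi : i < L) (hj : j < L) :
    ext f i j = f (⟨i, hi⟩, ⟨j, hj⟩) := by
  unfold ext; rw [dif_pos ⟨hi, hj⟩]

lemma Proper.hor {f : Colouring L} (hf : Proper f) {i j : ℕ} (hi : i + 1 < L) (hj : j < L) :
    ext f i j ≠ ext f (i + 1) j := by
  rw [ext_of_lt f (by omega) hj, ext_of_lt f hi hj]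
  apply hf
  simp [Adj]

lemma Proper.ver {f : Colouring L} (hf : Proper f) {i j : ℕ} (hi : i < L) (hj : j + 1 < L) :
    ext f i j ≠ ext f i (j + 1) := by
  rw [ext_of_lt f hi (by omega), ext_of_lt f hi hj]
  apply hf
  simp [Adj]

lemma Proper.dia {f : Colouring L} (hf : Proper f) {i j : ℕ} (hi : i + 1 < L) (hj : j + 1 < L) :
    ext f (i + 1) j ≠ ext f i (j + 1) := by
  rw [ext_of_lt f hi (by omega), ext_of_lt f (by omega) hj]
  apply hf
  simp [Adj]

lemma hgt_hor {f : Colouring L} (hf : Proper f) (i j : ℕ) (hi : i + 1 < L) (hj : j < L) :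
    hgt f (i + 1) j - hgt f i j = sg (ext f i j) (ext f (i + 1) j) := by
  induction j with
  | zero => unfold hgt; rw [sum_range_succ]; simp
  | succ j ih =>
    have h1 := ih (by omega)
    have h2 := hgt_ver f (i + 1) j
    have h3 := hgt_ver f i j
    have h4 := curl (ext f i j) (ext f (i + 1) j) (ext f i (j + 1)) (ext f (i + 1) (j + 1))
      (hf.hor hi (by omega)) (hf.ver (by omega) hj) (hf.dia hi hj) (hf.ver hi hj) (hf.hor hi hj)
    linarith

lemma hgt_cl (f : Colouring L) (i j : ℕ) :
    (hgt f i j - (cl (ext f i j) - cl (ext f 0 0))) % 2 = 0 := by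
  induction j with
  | zero =>
    induction i with
    | zero => simp [hgt]
    | succ i ih =>
      have h1 : hgt f (i + 1) 0 = hgt f i 0 + sg (ext f i 0) (ext f (i + 1) 0) := by
        unfold hgt; rw [sum_range_succ]; simp
      have h2 := sg_cl (ext f i 0) (ext f (i + 1) 0)
      omega
  | succ j ih =>
    have h1 := hgt_ver f i j
    have h2 := sg_cl (ext f i j) (ext f i (j + 1))
    omega

/-- height differences inside a box, computed by a path inside the box -/
def loc (f : Colouring L) (a b s t : ℕ) : ℤ :=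
  ∑ k ∈ range s, sg (ext f (a + k) b) (ext f (a + k + 1) b) -
    ∑ k ∈ range t, sg (ext f (a + s) (b + k)) (ext f (a + s) (b + k + 1))

lemma loc_eq {f : Colouring L} (hf : Proper f) (a b s t : ℕ) (ha : a + s < L) (hb : b + t < L) :
    loc f a b s t = hgt f (a + s) (b + t) - hgt f a b := by
  have h1 : ∑ k ∈ range s, sg (ext f (a + k) b) (ext f (a + k + 1) b) =
      hgt f (a + s) b - hgt f a b := by
    have : ∑ k ∈ range s, sg (ext f (a + k) b) (ext f (a + k + 1) b) =
        ∑ k ∈ range s, (hgt f (a + (k + 1)) b - hgt f (a + k) b) := by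
      apply sum_congr rfl
      intro k hk
      rw [mem_range] at hk
      rw [← hgt_hor hf (a + k) b (by omega) (by omega)]
      rfl
    rw [this, sum_range_sub (fun k => hgt f (a + k) b)]
    simp
  have h2 : ∑ k ∈ range t, sg (ext f (a + s) (b + k)) (ext f (a + s) (b + k + 1)) =
      - (hgt f (a + s) (b + t) - hgt f (a + s) b) := by
    have : ∑ k ∈ range t, sg (ext f (a + s) (b + k)) (ext f (a + s) (b + k + 1)) =
        ∑ k ∈ range t, -(hgt f (a + s) (b + (k + 1)) - hgt f (a + s) (b + k)) := by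
      apply sum_congr rfl
      intro k hk
      have := hgt_ver f (a + s) (b + k)
      have e : b + (k + 1) = b + k + 1 := rfl
      rw [e]
      linarith
    rw [this, sum_neg_distrib, sum_range_sub (fun k => hgt f (a + s) (b + k))]
    simp
  unfold loc
  rw [h1, h2]
  ring

/-- the box `[a, a+R) × [b, b+R)` -/
def InBox (R a b : ℕ) (p : Fin L × Fin L) : Prop :=
  a ≤ (p.1 : ℕ) ∧ (p.1 : ℕ) < a + R ∧ b ≤ (p.2 : ℕ) ∧ (p.2 : ℕ) < b + R

/-- a function of a colouring which depends only on the colours in a box -/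
def LocalTo (R a b : ℕ) (g : Colouring L → ℝ) : Prop :=
  ∀ f f' : Colouring L, (∀ p, InBox R a b p → f p = f' p) → g f = g f'

/-- the phase of a box -/
noncomputable def phase (R a b : ℕ) (f : Colouring L) : ℝ :=
  (1 / (R : ℝ)) * ∑ s ∈ range R, (1 / (R : ℝ)) * ∑ t ∈ range R, (loc f a b s t : ℝ) +
    (cl (ext f a b) : ℝ)

lemma phase_local (R a b : ℕ) (hR : 0 < R) (ha : a + R ≤ L) (hb : b + R ≤ L) (f f' : Colouring L)
    (h : ∀ p, InBox R a b p → f p = f' p) : phase R a b f = phase R a b f' := by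
  have key : ∀ i j, i < R → j < R → ext f (a + i) (b + j) = ext f' (a + i) (b + j) := by
    intro i j hi hj
    rw [ext_of_lt f (by omega) (by omega), ext_of_lt f' (by omega) (by omega)]
    apply h
    unfold InBox
    simp only
    omega
  have hl : ∀ s ∈ range R, ∀ t ∈ range R, loc f a b s t = loc f' a b s t := by
    intro s hs t ht
    rw [mem_range] at hs ht
    unfold loc
    congr 1
    · apply sum_congr rfl
      intro k hk
      rw [mem_range] at hk
      have e1 := key k 0 (by omega) (by omega)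
      have e2 := key (k + 1) 0 (by omega) (by omega)
      simp only [add_zero] at e1 e2
      rw [e1, show a + k + 1 = a + (k + 1) by ring, e2]
    · apply sum_congr rfl
      intro k hk
      rw [mem_range] at hk
      have e1 := key s k (by omega) (by omega)
      have e2 := key s (k + 1) (by omega) (by omega)
      rw [e1, show b + k + 1 = b + (k + 1) by ring, e2]
  have h0 := key 0 0 hR hR
  simp only [add_zero] at h0
  unfold phase
  rw [h0]
  congr 2
  apply sum_congr rfl
  intro s hs
  congr 1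
  apply sum_congr rfl
  intro t ht
  rw [hl s hs t ht]

/-- real valued height function -/
def hR (f : Colouring L) (i j : ℕ) : ℝ := (hgt f i j : ℝ)

lemma phase_eq (R a b : ℕ) (h0 : 0 < R) (ha : a + R ≤ L) (hb : b + R ≤ L) {f : Colouring L}
    (hf : Proper f) : phase R a b f = boxAv hR R a b f - hR f a b + (cl (ext f a b) : ℝ) := by
  have hR0 : (R : ℝ) ≠ 0 := by exact_mod_cast h0.ne'
  unfold phase
  congr 1
  have h1 : ∀ s ∈ range R, (1 / (R : ℝ)) * ∑ t ∈ range R, (loc f a b s t : ℝ) =
      colAv hR R b (a + s) f - hR f a b := by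
    intro s hs
    rw [mem_range] at hs
    unfold colAv
    have : ∑ t ∈ range R, (loc f a b s t : ℝ) =
        ∑ t ∈ range R, (hR f (a + s) (b + t) - hR f a b) := by
      apply sum_congr rfl
      intro t ht
      rw [mem_range] at ht
      rw [loc_eq hf a b s t (by omega) (by omega)]
      unfold hR
      push_cast
      ring
    rw [this, sum_sub_distrib, sum_const, card_range, nsmul_eq_mul]
    field_simp
  rw [sum_congr rfl h1, sum_sub_distrib, sum_const, card_range, nsmul_eq_mul]
  unfold boxAv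
  field_simp

end Pool.Agent.H65.FC
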