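import Mathlib
import Pool.Agent.H65.FC.Col

/-! The dichotomy for colour symmetric laws. -/

namespace Pool.Agent.H65.FC

open Finset Filter Topology

variable {L : ℕ} {w : Colouring L → ℝ} {δ : ℕ → ℝ}

lemma SymLaw.comp (hw : SymLaw w) (σ : Equiv.Perm (Fin 4)) (u : Colouring L → ℝ) :
    Ex w (fun f => u (fun p => σ (f p))) = Ex w u := by
  unfold Ex
  rw [← Equiv.sum_comp (Equiv.arrowCongr (Equiv.refl (Fin L × Fin L)) σ) (fun f => w f * u f)]
  apply sum_congr rfl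
  intro f _
  have : (Equiv.arrowCongr (Equiv.refl (Fin L × Fin L)) σ) f = fun p => σ (f p) := by
    ext p; simp [Equiv.arrowCongr]
  rw [this, hw.symm σ f]

lemma SymLaw.odd (hw : SymLaw w) (σ : Equiv.Perm (Fin 4)) (u : Colouring L → ℝ)
    (hu : ∀ f, u (fun p => σ (f p)) = - u f) : Ex w u = 0 := by
  have h1 := hw.comp σ u
  have h2 : Ex w (fun f => u (fun p => σ (f p))) = - Ex w u := by
    rw [show (fun f => u (fun p => σ (f p))) = fun f => (-1 : ℝ) * u f by
      funext f; rw [hu f]; ring, Ex_smul]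
    ring
  linarith

lemma ext_comp (σ : Equiv.Perm (Fin 4)) (f : Colouring L) {i j : ℕ} (hi : i < L) (hj : j < L) :
    ext (fun p => σ (f p)) i j = σ (ext f i j) := by
  rw [ext_of_lt _ hi hj, ext_of_lt f hi hj]

lemma phase_tau (R a b : ℕ) (hR : 0 < R) (ha : a + R ≤ L) (hb : b + R ≤ L) (f : Colouring L) :
    phase R a b (fun p => tau (f p)) = phase R a b f + (1 - 2 * (cl (ext f a b) : ℝ)) := by
  have hl : ∀ s ∈ range R, ∀ t ∈ range R, loc (fun p => tau (f p)) a b s t = loc f a b s t := by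
    intro s hs t ht
    rw [mem_range] at hs ht
    unfold loc
    congr 1
    · apply sum_congr rfl
      intro k hk
      rw [mem_range] at hk
      rw [ext_comp tau f (by omega) (by omega), ext_comp tau f (by omega) (by omega), sg_tau]
    · apply sum_congr rfl
      intro k hk
      rw [mem_range] at hk
      rw [ext_comp tau f (by omega) (by omega), ext_comp tau f (by omega) (by omega), sg_tau]
  have h1 : ∑ s ∈ range R, (1 / (R : ℝ)) * ∑ t ∈ range R,
      (loc (fun p => tau (f p)) a b s t : ℝ) =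
      ∑ s ∈ range R, (1 / (R : ℝ)) * ∑ t ∈ range R, (loc f a b s t : ℝ) := by
    apply sum_congr rfl
    intro s hs
    congr 1
    apply sum_congr rfl
    intro t ht
    rw [hl s hs t ht]
  unfold phase
  rw [h1, ext_comp tau f (by omega) (by omega), cl_tau]
  push_cast
  ring

lemma cl_cases : ∀ a : Fin 4, cl a = 0 ∨ cl a = 1 := by decide

lemma cos_phase_tau (R a b : ℕ) (hR : 0 < R) (ha : a + R ≤ L) (hb : b + R ≤ L)
    (f : Colouring L) : Real.cos (Real.pi * phase R a b (fun p => tau (f p))) =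
      - Real.cos (Real.pi * phase R a b f) := by
  rw [phase_tau R a b hR ha hb f]
  rcases cl_cases (ext f a b) with h | h <;> rw [h]
  · rw [← Real.cos_add_pi]; congr 1; push_cast; ring
  · rw [← Real.cos_sub_pi]; congr 1; push_cast; ring

lemma sin_phase_tau (R a b : ℕ) (hR : 0 < R) (ha : a + R ≤ L) (hb : b + R ≤ L)
    (f : Colouring L) : Real.sin (Real.pi * phase R a b (fun p => tau (f p))) =
      - Real.sin (Real.pi * phase R a b f) := by
  rw [phase_tau R a b hR ha hb f]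
  rcases cl_cases (ext f a b) with h | h <;> rw [h]
  · rw [← Real.sin_add_pi]; congr 1; push_cast; ring
  · rw [← Real.sin_sub_pi]; congr 1; push_cast; ring

lemma cos_phase_sub (R a b a' b' : ℕ) (h0 : 0 < R) (ha : a + R ≤ L) (hb : b + R ≤ L)
    (ha' : a' + R ≤ L) (hb' : b' + R ≤ L) {f : Colouring L} (hf : Proper f) :
    Real.cos (Real.pi * phase R a b f) * Real.cos (Real.pi * phase R a' b' f) +
      Real.sin (Real.pi * phase R a b f) * Real.sin (Real.pi * phase R a' b' f) =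
      Real.cos (Real.pi * (boxAv hR R a b f - boxAv hR R a' b' f)) := by
  rw [← Real.cos_sub, phase_eq R a b h0 ha hb hf, phase_eq R a' b' h0 ha' hb' hf]
  have h1 := hgt_cl f a b
  have h2 := hgt_cl f a' b'
  obtain ⟨m, hm⟩ : ∃ m : ℤ, (hgt f a b - cl (ext f a b)) - (hgt f a' b' - cl (ext f a' b')) =
      m * 2 := by
    refine ⟨((hgt f a b - cl (ext f a b)) - (hgt f a' b' - cl (ext f a' b'))) / 2, ?_⟩
    omega
  have hm' : ((hgt f a b : ℝ) - (cl (ext f a b) : ℝ)) -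
      ((hgt f a' b' : ℝ) - (cl (ext f a' b') : ℝ)) = m * 2 := by exact_mod_cast hm
  rw [← Real.cos_sub_int_mul_two_pi (Real.pi * (boxAv hR R a b f - boxAv hR R a' b' f)) m]
  congr 1
  unfold hR
  have e : (m : ℝ) * (2 * Real.pi) = Real.pi * (((hgt f a b : ℝ) - (cl (ext f a b) : ℝ)) -
      ((hgt f a' b' : ℝ) - (cl (ext f a' b') : ℝ))) := by rw [hm']; ring
  rw [e]
  ring

/-- **Core dichotomy.** -/
theorem core (hδ : Good δ) (η : ℝ) (hη : 0 < η) : ∃ R : ℕ, 0 < R ∧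
    ∀ (L : ℕ) (w : Colouring L → ℝ), SymLaw w → Inc δ L w hR →
      ∀ a b a' b' : ℕ, a + R ≤ L → b + R ≤ L → a' + R ≤ L → b' + R ≤ L →
        1 - η ≤ Ex w (fun f => Real.cos (Real.pi * phase R a b f) *
            Real.cos (Real.pi * phase R a' b' f)) +
          Ex w (fun f => Real.sin (Real.pi * phase R a b f) *
            Real.sin (Real.pi * phase R a' b' f)) := by
  have hpi := Real.pi_pos
  have h1 := hδ.kap_tendsto
  have h2 : ∀ᶠ R in atTop, kap δ R < η / (2 * Real.pi ^ 2) :=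
    h1.eventually_lt_const (by positivity)
  obtain ⟨R, hR1, hR2⟩ := (h2.and (eventually_gt_atTop 0)).exists
  refine ⟨R, hR2, fun L w hw hI a b a' b' ha hb ha' hb' => ?_⟩
  rw [← Ex_add]
  have h3 : Ex w (fun f => Real.cos (Real.pi * phase R a b f) *
      Real.cos (Real.pi * phase R a' b' f) + Real.sin (Real.pi * phase R a b f) *
      Real.sin (Real.pi * phase R a' b' f)) =
      Ex w (fun f => Real.cos (Real.pi * (boxAv hR R a b f - boxAv hR R a' b' f))) :=
    Ex_congr (fun f hf => cos_phase_sub R a b a' b' hR2 ha hb ha' hb' (hw.proper f hf))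
  rw [h3]
  have h4 := Ex_cos_ge hw.nonneg hw.total
    (fun f => boxAv hR R a b f - boxAv hR R a' b' f)
  have h5 := hI.box hδ hw.nonneg R a b a' b' ha hb ha' hb'
  have h6 : (Real.pi ^ 2 / 2) * Ex w (fun f => (boxAv hR R a b f - boxAv hR R a' b' f) ^ 2) ≤
      (Real.pi ^ 2 / 2) * (4 * kap δ R) := mul_le_mul_of_nonneg_left h5 (by positivity)
  have h7 : (Real.pi ^ 2 / 2) * (4 * kap δ R) ≤ η := by
    have := (lt_div_iff₀ (by positivity : (0 : ℝ) < 2 * Real.pi ^ 2)).mp hR1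
    nlinarith
  linarith

/-- a unit step to the right or upwards -/
def Step (p q : Fin L × Fin L) : Prop :=
  ((q.1 : ℕ) = p.1 + 1 ∧ (q.2 : ℕ) = p.2) ∨ ((q.1 : ℕ) = p.1 ∧ (q.2 : ℕ) = p.2 + 1)

lemma Step.adj {p q : Fin L × Fin L} (h : Step p q) : Adj p q := by
  unfold Adj
  rcases h with ⟨h1, h2⟩ | ⟨h1, h2⟩ <;> rw [h1, h2] <;> simp

/-- max distance -/
def sd (p q : Fin L × Fin L) : ℕ := max (nd p.1 q.1) (nd p.2 q.2)

/-- moment bounds for unit steps give the hypothesis on increments -/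
lemma inc_of_moment (hw : SymLaw w)
    (h : ∀ p q p' q' : Fin L × Fin L, Step p q → Step p' q' →
      |Ex w (fun f => (sg (f p) (f q) : ℝ) * (sg (f p') (f q') : ℝ))| ≤ δ (sd p' p)) :
    Inc δ L w hR := by
  have H : ∀ {f : Colouring L}, Proper f → ∀ (i j : ℕ) (hi : i + 1 < L) (hj : j < L),
      hR f (i + 1) j - hR f i j =
        (sg (f (⟨i, by omega⟩, ⟨j, hj⟩)) (f (⟨i + 1, hi⟩, ⟨j, hj⟩)) : ℝ) := by
    intro f hf i j hi hj
    have := hgt_hor hf i j hi hj
    rw [ext_of_lt f (by omega) hj, ext_of_lt f hi hj] at this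
    unfold hR
    rw [← this]
    push_cast
    ring
  have V : ∀ (f : Colouring L) (i j : ℕ) (hi : i < L) (hj : j + 1 < L),
      hR f i (j + 1) - hR f i j =
        -(sg (f (⟨i, hi⟩, ⟨j, by omega⟩)) (f (⟨i, hi⟩, ⟨j + 1, hj⟩)) : ℝ) := by
    intro f i j hi hj
    have := hgt_ver f i j
    rw [ext_of_lt f hi (by omega), ext_of_lt f hi hj] at this
    unfold hR
    rw [← Int.cast_neg, ← this]
    push_cast
    ring
  constructor
  · intro i j i' j' h1 h2 h3 h4
    have := h (⟨i, by omega⟩, ⟨j, h2⟩) (⟨i + 1, h1⟩, ⟨j, h2⟩)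
      (⟨i', by omega⟩, ⟨j', h4⟩) (⟨i' + 1, h3⟩, ⟨j', h4⟩) (Or.inl ⟨rfl, rfl⟩) (Or.inl ⟨rfl, rfl⟩)
    refine le_trans (le_of_eq ?_) this
    congr 1
    refine Ex_congr (fun f hf => ?_)
    rw [H (hw.proper f hf) i j h1 h2, H (hw.proper f hf) i' j' h3 h4]
  · intro i j i' j' h1 h2 h3 h4
    have := h (⟨i, by omega⟩, ⟨j, h2⟩) (⟨i + 1, h1⟩, ⟨j, h2⟩)
      (⟨i', h3⟩, ⟨j', by omega⟩) (⟨i', h3⟩, ⟨j' + 1, h4⟩) (Or.inl ⟨rfl, rfl⟩) (Or.inr ⟨rfl, rfl⟩)
    refine le_trans (le_of_eq ?_) this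
    rw [← abs_neg]
    congr 1
    rw [show ∀ x : ℝ, -x = (-1) * x by intro x; ring, ← Ex_smul]
    refine Ex_congr (fun f hf => ?_)
    rw [H (hw.proper f hf) i j h1 h2, V f i' j' h3 h4]
    ring
  · intro i j i' j' h1 h2 h3 h4
    have := h (⟨i, h1⟩, ⟨j, by omega⟩) (⟨i, h1⟩, ⟨j + 1, h2⟩)
      (⟨i', h3⟩, ⟨j', by omega⟩) (⟨i', h3⟩, ⟨j' + 1, h4⟩) (Or.inr ⟨rfl, rfl⟩) (Or.inr ⟨rfl, rfl⟩)
    refine le_trans (le_of_eq ?_) this
    congr 1
    refine Ex_congr (fun f hf => ?_)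
    rw [V f i j h1 h2, V f i' j' h3 h4]
    ring

/-- second moment of signs = probability of the same type minus one third -/
lemma moment_eq (hw : SymLaw w) (p q p' q' : Fin L × Fin L) (h : Adj p q) (h' : Adj p' q') :
    Ex w (fun f => (sg (f p) (f q) : ℝ) * (sg (f p') (f q') : ℝ)) =
      Ex w (fun f => if SameType (f p) (f q) (f p') (f q') then 1 else 0) - 1 / 3 := by
  have e1 := hw.comp cyc (fun f => (sg (f p) (f q) : ℝ) * (sg (f p') (f q') : ℝ))
  have e2 := hw.comp cyc (fun f => (sg (cyc (f p)) (cyc (f q)) : ℝ) *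
    (sg (cyc (f p')) (cyc (f q')) : ℝ))
  have e3 : Ex w (fun f => (sg (f p) (f q) : ℝ) * (sg (f p') (f q') : ℝ) +
      ((sg (cyc (f p)) (cyc (f q)) : ℝ) * (sg (cyc (f p')) (cyc (f q')) : ℝ) +
      (sg (cyc (cyc (f p))) (cyc (cyc (f q))) : ℝ) *
        (sg (cyc (cyc (f p'))) (cyc (cyc (f q'))) : ℝ))) =
      Ex w (fun f => 3 * (if SameType (f p) (f q) (f p') (f q') then (1 : ℝ) else 0) -
        (fun _ => (1 : ℝ)) f) := by
    refine Ex_congr (fun f hf => ?_)
    have hf' := hw.proper f hf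
    have := sg_cyc (f p) (f q) (f p') (f q') (hf' p q h) (hf' p' q' h')
    rw [← add_assoc]
    have h2 : ((sg (f p) (f q) * sg (f p') (f q') +
        sg (cyc (f p)) (cyc (f q)) * sg (cyc (f p')) (cyc (f q')) +
        sg (cyc (cyc (f p))) (cyc (cyc (f q))) * sg (cyc (cyc (f p'))) (cyc (cyc (f q'))) : ℤ) :
        ℝ) = ((3 * (if SameType (f p) (f q) (f p') (f q') then 1 else 0) - 1 : ℤ) : ℝ) := by
      rw [this]
    push_cast at h2
    exact h2
  rw [Ex_add, Ex_add, Ex_sub, Ex_smul] at e3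
  have e4 : Ex w (fun _ => (1 : ℝ)) = 1 := by simp [Ex, hw.total]
  rw [e4] at e3
  linarith

end Pool.Agent.H65.FC
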